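import Pool.Agent.Lib.MP_89fcdb_gt.H14.Top

/-!
# Module CLOSED: `M8` and `N8` are closed connected `8`-manifolds
-/

open Set Topology

namespace Pool.Agent.Lib.MP_89fcdb_gt.H14

noncomputable section

/-! ## General facts on `LocEuc` -/

theorem locEuc_of_chart {n : ℕ} {X : Type} [TopologicalSpace X]
    (h : ∀ x : X, ∃ (Z : Type) (_ : TopologicalSpace Z) (e : Z → X), IsOpenEmbedding e ∧
      LocEuc n Z ∧ x ∈ range e) : LocEuc n X := by
  intro x
  obtain ⟨Z, _, e, he, hZ, z, rfl⟩ := h x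
  obtain ⟨j, hj, hj0⟩ := hZ z
  exact ⟨e ∘ j, he.comp hj, by simp [hj0]⟩

theorem locEuc_self (n : ℕ) : LocEuc n (Fin n → ℝ) := by
  intro x
  exact ⟨fun t => x + t, (Homeomorph.addLeft x).isOpenEmbedding, by simp⟩

theorem locEuc_prod {m n : ℕ} {X Y : Type} [TopologicalSpace X] [TopologicalSpace Y]
    (hX : LocEuc m X) (hY : LocEuc n Y) : LocEuc (m + n) (X × Y) := by
  rintro ⟨x, y⟩
  obtain ⟨j, hj, hj0⟩ := hX x
  obtain ⟨i, hi, hi0⟩ := hY y
  let e := (Fin.appendHomeomorph (X := ℝ) m n).symm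
  refine ⟨fun t => (j (e t).1, i (e t).2), ?_, ?_⟩
  · exact (hj.prodMap hi).comp e.isOpenEmbedding
  · have h0 : e 0 = (0, 0) := by
      rw [Homeomorph.symm_apply_eq]
      ext k
      refine Fin.addCases (fun i => ?_) (fun i => ?_) k <;> simp
    simp only [h0, hj0, hi0]

/-! ## `M8` -/

/-- the symmetry `(r, z, u) ↦ (-r, conj z, (u₂, u₁, u₃))` of `B` -/
def symB : B → B := fun b => ⟨(-b.1.1, (starRingEnd ℂ) b.1.2.1, (b.1.2.2.2.1, b.1.2.2.1, b.1.2.2.2.2)), by
  obtain ⟨h1, h2, h3, h4⟩ := b.2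
  refine ⟨?_, ?_, ?_, ?_⟩
  · simpa using h1
  · refine Eq.trans ?_ h2
    simp only [n3]
    ring
  · simp only [Complex.ofReal_neg]
    linear_combination h4
  · simp only [Complex.ofReal_neg, Complex.conj_conj]
    linear_combination h3⟩

theorem continuous_symB : Continuous symB := by
  unfold symB
  refine Continuous.subtype_mk ?_ _
  have h : Continuous fun b : B => (starRingEnd ℂ) b.1.2.1 :=
    Complex.continuous_conj.comp (by fun_prop)
  fun_prop

theorem symB_symB (b : B) : symB (symB b) = b := by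
  apply Subtype.ext
  simp [symB]

def symBH : B ≃ₜ B where
  toFun := symB
  invFun := symB
  left_inv := symB_symB
  right_inv := symB_symB
  continuous_toFun := continuous_symB
  continuous_invFun := continuous_symB

theorem locEuc_S3 (hS : TrivS3Statement) : LocEuc 3 S3 := by
  intro q
  obtain ⟨j, hj, hj0, _⟩ := hS q
  exact ⟨j, hj, hj0⟩

theorem locEuc_B (hS : TrivS3Statement) (hB : TrivBStatement) : LocEuc 5 B := by
  obtain ⟨j, hj, hrange, _⟩ := hB
  have hZ : LocEuc 5 (S3 × (Fin 2 → ℝ)) := locEuc_prod (locEuc_S3 hS) (locEuc_self 2)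
  refine locEuc_of_chart fun b => ?_
  by_cases h : b.1.1 = -1
  · refine ⟨S3 × (Fin 2 → ℝ), inferInstance, symBH ∘ j, symBH.isOpenEmbedding.comp hj, hZ, ?_⟩
    have h1 : symB b ∈ range j := by
      rw [hrange]
      change -b.1.1 ≠ -1
      rw [h]
      norm_num
    obtain ⟨p, hp⟩ := h1
    refine ⟨p, ?_⟩
    change symB (j p) = b
    rw [hp, symB_symB]
  · refine ⟨S3 × (Fin 2 → ℝ), inferInstance, j, hj, hZ, ?_⟩
    rw [hrange]
    exact h

/-! ## `N8` -/

/-- the symmetry `(u, v) ↦ (-u, v)` of `P` -/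
def symP : P → P := fun p => ⟨(-p.1.1, p.1.2), by
  obtain ⟨h1, h2, h3'⟩ := p.2
  refine ⟨by rw [n3_neg]; exact h1, h2, ?_⟩
  have : h3 (-p.1.1) p.1.2 = -h3 p.1.1 p.1.2 := by simp [h3]; ring
  rw [this, h3', neg_zero]⟩

theorem continuous_symP : Continuous symP := by
  unfold symP
  fun_prop

theorem symP_symP (p : P) : symP (symP p) = p := by
  apply Subtype.ext
  simp [symP]

def symPH : P ≃ₜ P where
  toFun := symP
  invFun := symP
  left_inv := symP_symP
  right_inv := symP_symP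
  continuous_toFun := continuous_symP
  continuous_invFun := continuous_symP

theorem locEuc_P (hS : TrivS3Statement) (hP : TrivPStatement) : LocEuc 8 P := by
  obtain ⟨j, hj, hrange, _⟩ := hP
  have hZ : LocEuc 8 (S3 × (Fin 5 → ℝ)) := locEuc_prod (locEuc_S3 hS) (locEuc_self 5)
  refine locEuc_of_chart fun p => ?_
  by_cases h : p.1.1.1 = -1
  · refine ⟨S3 × (Fin 5 → ℝ), inferInstance, symPH ∘ j, symPH.isOpenEmbedding.comp hj, hZ, ?_⟩
    have h1 : symP p ∈ range j := by
      rw [hrange]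
      change -p.1.1.1 ≠ -1
      rw [h]
      norm_num
    obtain ⟨q, hq⟩ := h1
    refine ⟨q, ?_⟩
    change symP (j q) = p
    rw [hq, symP_symP]
  · refine ⟨S3 × (Fin 5 → ℝ), inferInstance, j, hj, hZ, ?_⟩
    rw [hrange]
    exact h

theorem connected_Q {X : Type} [TopologicalSpace X] [ConnectedSpace X] (T : Invol X) :
    ConnectedSpace T.Q := Quotient.instConnectedSpace

theorem closed (hQ : QuotStatement) (hS : TrivS3Statement) (hP : TrivPStatement)
    (hB : TrivBStatement) (hT : TopStatement) : ManStatement := by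
  obtain ⟨⟨i1, i2⟩, ⟨i3, i4⟩, ⟨i5, i6⟩⟩ := hT
  obtain ⟨q1, q2, _, _, q3⟩ := hQ S3 TS3
  obtain ⟨p1, p2, _, _, p3⟩ := hQ P TP
  have c1 : ConnectedSpace TS3.Q := connected_Q TS3
  have c2 : ConnectedSpace TP.Q := connected_Q TP
  exact ⟨⟨inferInstance, inferInstance, inferInstance,
      locEuc_prod (q3 3 (locEuc_S3 hS)) (locEuc_B hS hB)⟩,
    ⟨p1, p2, c2, p3 8 (locEuc_P hS hP)⟩⟩

end

end Pool.Agent.Lib.MP_89fcdb_gt.H14
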