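import Pool.Agent.Lib.MP_89fcdb_gt.Interfaces

/-!
# Module TOP: compactness and path connectedness of `S3`, `P`, `B`
-/

open Set Topology

namespace Pool.Agent.Lib.MP_89fcdb_gt.H14

noncomputable section

/-- `ℂ³` -/
abbrev C3 : Type := ℂ × ℂ × ℂ

theorem continuous_n3 : Continuous n3 := by
  unfold n3
  exact ((Complex.continuous_normSq.comp continuous_fst).add
    (Complex.continuous_normSq.comp (continuous_fst.comp continuous_snd))).add
    (Complex.continuous_normSq.comp (continuous_snd.comp continuous_snd))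

theorem n3_smul (c : ℝ) (u : C3) : n3 (c • u) = c ^ 2 * n3 u := by
  simp only [n3, Prod.smul_fst, Prod.smul_snd, Complex.real_smul, Complex.normSq_mul,
    Complex.normSq_ofReal]
  ring

theorem n3_nonneg (u : C3) : 0 ≤ n3 u :=
  add_nonneg (add_nonneg (Complex.normSq_nonneg _) (Complex.normSq_nonneg _))
    (Complex.normSq_nonneg _)

theorem n3_pos {u : C3} (h : u ≠ 0) : 0 < n3 u := by
  refine lt_of_le_of_ne (n3_nonneg u) fun h0 => h ?_
  have h1 := Complex.normSq_nonneg u.1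
  have h2 := Complex.normSq_nonneg u.2.1
  have h3 := Complex.normSq_nonneg u.2.2
  unfold n3 at h0
  have e1 : u.1 = 0 := Complex.normSq_eq_zero.1 (by linarith)
  have e2 : u.2.1 = 0 := Complex.normSq_eq_zero.1 (by linarith)
  have e3 : u.2.2 = 0 := Complex.normSq_eq_zero.1 (by linarith)
  exact Prod.ext e1 (Prod.ext e2 e3)

theorem ne_zero_of_n3 {u : C3} (h : n3 u = 1) : u ≠ 0 := by
  rintro rfl
  simp [n3] at h

/-- the unit sphere of a nonzero complex subspace of `ℂ³` is path connected -/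
theorem sphere_path (W : Submodule ℂ C3) (hW : W ≠ ⊥) :
    IsPathConnected {u : C3 | u ∈ W ∧ n3 u = 1} := by
  have hnt : Nontrivial W := (Submodule.nontrivial_iff_ne_bot).2 hW
  have hrank : 1 < Module.rank ℝ W := by
    have h1 : Module.rank ℝ W = 2 * Module.rank ℂ W := rank_real_of_complex W
    rw [h1]
    have h2 : 1 ≤ Module.rank ℂ W := Cardinal.one_le_iff_pos.2 rank_pos
    calc (1 : Cardinal) < 2 := by norm_num
      _ = 2 * 1 := by norm_num
      _ ≤ 2 * Module.rank ℂ W := by gcongr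
  have hpc := isPathConnected_compl_singleton_of_one_lt_rank hrank (0 : W)
  have hc : ContinuousOn (fun w : W => (Real.sqrt (n3 (w : C3)))⁻¹ • (w : C3)) {0}ᶜ := by
    have h1 : Continuous fun w : W => Real.sqrt (n3 (w : C3)) :=
      Real.continuous_sqrt.comp (continuous_n3.comp continuous_subtype_val)
    refine (h1.continuousOn.inv₀ fun w hw => ?_).smul continuous_subtype_val.continuousOn
    have hne : (w : C3) ≠ 0 := fun h => hw (Subtype.ext h)
    exact (Real.sqrt_pos.2 (n3_pos hne)).ne'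
  have := hpc.image' hc
  convert this using 1
  ext u
  constructor
  · rintro ⟨hu, hn⟩
    refine ⟨⟨u, hu⟩, fun h => ne_zero_of_n3 hn (congrArg Subtype.val h), ?_⟩
    simp [hn]
  · rintro ⟨w, hw, rfl⟩
    have hne : (w : C3) ≠ 0 := fun h => hw (Subtype.ext h)
    have hpos := n3_pos hne
    constructor
    · exact Submodule.smul_of_tower_mem W _ w.2
    · change n3 ((Real.sqrt (n3 (w : C3)))⁻¹ • (w : C3)) = 1
      rw [n3_smul, inv_pow, Real.sq_sqrt hpos.le, inv_mul_cancel₀ hpos.ne']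

/-- the unit sphere of `ℝ × ℂ` is path connected -/
theorem s2_path : IsPathConnected {x : ℝ × ℂ | x.1 ^ 2 + Complex.normSq x.2 = 1} := by
  have hrank : 1 < Module.rank ℝ (ℝ × ℂ) := by
    rw [rank_prod', Complex.rank_real_complex, Module.rank_self]
    norm_num
  have hpc := isPathConnected_compl_singleton_of_one_lt_rank hrank (0 : ℝ × ℂ)
  have hpos : ∀ x : ℝ × ℂ, x ≠ 0 → 0 < x.1 ^ 2 + Complex.normSq x.2 := by
    intro x hx
    have h1 := sq_nonneg x.1
    have h2 := Complex.normSq_nonneg x.2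
    refine lt_of_le_of_ne (add_nonneg h1 h2) fun h0 => hx ?_
    have e1 : x.1 = 0 := by
      have : x.1 ^ 2 = 0 := by linarith
      exact pow_eq_zero_iff two_ne_zero |>.1 this
    have e2 : x.2 = 0 := Complex.normSq_eq_zero.1 (by linarith)
    exact Prod.ext e1 e2
  have hcn : Continuous fun x : ℝ × ℂ => Real.sqrt (x.1 ^ 2 + Complex.normSq x.2) :=
    Real.continuous_sqrt.comp ((continuous_fst.pow 2).add
      (Complex.continuous_normSq.comp continuous_snd))
  have hc : ContinuousOn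
      (fun x : ℝ × ℂ => (Real.sqrt (x.1 ^ 2 + Complex.normSq x.2))⁻¹ • x) {0}ᶜ := by
    refine (hcn.continuousOn.inv₀ fun x hx => ?_).smul continuous_id.continuousOn
    exact (Real.sqrt_pos.2 (hpos x hx)).ne'
  have := hpc.image' hc
  convert this using 1
  ext x
  constructor
  · intro hx
    refine ⟨x, ?_, ?_⟩
    · rintro rfl
      simp at hx
    · change (Real.sqrt (x.1 ^ 2 + Complex.normSq x.2))⁻¹ • x = x
      rw [show x.1 ^ 2 + Complex.normSq x.2 = 1 from hx]
      simp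
  · rintro ⟨y, hy, rfl⟩
    have hp := hpos y hy
    change ((Real.sqrt (y.1 ^ 2 + Complex.normSq y.2))⁻¹ • y).1 ^ 2
      + Complex.normSq ((Real.sqrt (y.1 ^ 2 + Complex.normSq y.2))⁻¹ • y).2 = 1
    set t := y.1 ^ 2 + Complex.normSq y.2 with ht
    have h1 : ((Real.sqrt t)⁻¹ • y).1 = (Real.sqrt t)⁻¹ * y.1 := rfl
    have h2 : ((Real.sqrt t)⁻¹ • y).2 = (((Real.sqrt t)⁻¹ : ℝ) : ℂ) * y.2 := by
      rw [Prod.smul_snd, Complex.real_smul]
    rw [h1, h2, Complex.normSq_mul, Complex.normSq_ofReal]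
    have h3 : (Real.sqrt t)⁻¹ * (Real.sqrt t)⁻¹ = t⁻¹ := by
      rw [← mul_inv, Real.mul_self_sqrt hp.le]
    calc ((Real.sqrt t)⁻¹ * y.1) ^ 2 + (Real.sqrt t)⁻¹ * (Real.sqrt t)⁻¹ * Complex.normSq y.2
        = ((Real.sqrt t)⁻¹ * (Real.sqrt t)⁻¹) * (y.1 ^ 2 + Complex.normSq y.2) := by ring
      _ = 1 := by rw [h3, ← ht, inv_mul_cancel₀ hp.ne']

/-! ## Linear subspaces -/

/-- the orthogonal complement of `u` (second variable) -/
def Wr (u : C3) : Submodule ℂ C3 where
  carrier := {v | h3 u v = 0}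
  add_mem' := by
    intro v w hv hw
    have : h3 u (v + w) = h3 u v + h3 u w := by simp [h3]; ring
    change h3 u (v + w) = 0
    rw [this, show h3 u v = 0 from hv, show h3 u w = 0 from hw, add_zero]
  zero_mem' := by simp [h3]
  smul_mem' := by
    intro c v hv
    have : h3 u (c • v) = c * h3 u v := by simp [h3]; ring
    change h3 u (c • v) = 0
    rw [this, show h3 u v = 0 from hv, mul_zero]

/-- the orthogonal complement of `v` (first variable) -/
def Wl (v : C3) : Submodule ℂ C3 where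
  carrier := {u | h3 u v = 0}
  add_mem' := by
    intro u w hv hw
    have : h3 (u + w) v = h3 u v + h3 w v := by simp [h3]; ring
    change h3 (u + w) v = 0
    rw [this, show h3 u v = 0 from hv, show h3 w v = 0 from hw, add_zero]
  zero_mem' := by simp [h3]
  smul_mem' := by
    intro c u hv
    have : h3 (c • u) v = (starRingEnd ℂ) c * h3 u v := by simp [h3]; ring
    change h3 (c • u) v = 0
    rw [this, show h3 u v = 0 from hv, mul_zero]

/-- the fibres of `B` -/
def Wb (x : ℝ × ℂ) : Submodule ℂ C3 where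
  carrier := {u | x.2 * u.2.1 = (1 - x.1) * u.1 ∧ (starRingEnd ℂ) x.2 * u.1 = (1 + x.1) * u.2.1}
  add_mem' := by
    rintro u v ⟨h1, h2⟩ ⟨h3, h4⟩
    refine ⟨?_, ?_⟩
    · simp only [Prod.fst_add, Prod.snd_add]
      rw [mul_add, mul_add, h1, h3]
    · simp only [Prod.fst_add, Prod.snd_add]
      rw [mul_add, mul_add, h2, h4]
  zero_mem' := by simp
  smul_mem' := by
    rintro c u ⟨h1, h2⟩
    refine ⟨?_, ?_⟩
    · simp only [Prod.smul_fst, Prod.smul_snd, smul_eq_mul]
      linear_combination c * h1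
    · simp only [Prod.smul_fst, Prod.smul_snd, smul_eq_mul]
      linear_combination c * h2

theorem ne_bot {W : Submodule ℂ C3} {u : C3} (h : u ∈ W) (h1 : n3 u = 1) : W ≠ ⊥ := by
  rintro rfl
  exact ne_zero_of_n3 h1 ((Submodule.mem_bot ℂ).1 h)

/-! ## `S³` -/

theorem norm_le_of_normSq {z : ℂ} (h : Complex.normSq z ≤ 1) : ‖z‖ ≤ 1 := by
  rw [Complex.normSq_eq_norm_sq] at h
  nlinarith [norm_nonneg z]

theorem norm_le_of_n3 {u : C3} (h : n3 u = 1) : ‖u‖ ≤ 1 := by
  have h1 := Complex.normSq_nonneg u.1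
  have h2 := Complex.normSq_nonneg u.2.1
  have h3 := Complex.normSq_nonneg u.2.2
  unfold n3 at h
  rw [norm_prod_le_iff, norm_prod_le_iff]
  exact ⟨norm_le_of_normSq (by linarith), norm_le_of_normSq (by linarith),
    norm_le_of_normSq (by linarith)⟩

/-- the set of points of `S³` -/
def SS : Set (ℂ × ℂ) := {q | Complex.normSq q.1 + Complex.normSq q.2 = 1}

theorem compact_S3 : CompactSpace S3 := by
  refine (isCompact_iff_compactSpace (s := SS)).1 ?_
  refine Metric.isCompact_of_isClosed_isBounded ?_ ?_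
  · exact isClosed_eq ((Complex.continuous_normSq.comp continuous_fst).add
      (Complex.continuous_normSq.comp continuous_snd)) continuous_const
  · refine (Metric.isBounded_closedBall (x := (0 : ℂ × ℂ)) (r := 1)).subset ?_
    intro q hq
    have h1 := Complex.normSq_nonneg q.1
    have h2 := Complex.normSq_nonneg q.2
    have hq' : Complex.normSq q.1 + Complex.normSq q.2 = 1 := hq
    rw [mem_closedBall_zero_iff, norm_prod_le_iff]
    exact ⟨norm_le_of_normSq (by linarith), norm_le_of_normSq (by linarith)⟩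

theorem path_S3 : PathConnectedSpace S3 := by
  refine (isPathConnected_iff_pathConnectedSpace (F := SS)).1 ?_
  let W : Submodule ℂ C3 := LinearMap.ker (LinearMap.fst ℂ ℂ (ℂ × ℂ))
  have hW : W ≠ ⊥ := ne_bot (u := (0, 1, 0)) (by simp [W]) (by simp [n3])
  have h := (sphere_path W hW).image (f := fun u : C3 => u.2) continuous_snd
  convert h using 1
  ext q
  constructor
  · intro hq
    have hq' : Complex.normSq q.1 + Complex.normSq q.2 = 1 := hq
    exact ⟨(0, q), ⟨by simp [W], by simpa [n3] using hq'⟩, rfl⟩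
  · rintro ⟨u, ⟨hu, hn⟩, rfl⟩
    have hu' : u.1 = 0 := hu
    have hn' : Complex.normSq u.1 + Complex.normSq u.2.1 + Complex.normSq u.2.2 = 1 := hn
    rw [hu'] at hn'
    change Complex.normSq u.2.1 + Complex.normSq u.2.2 = 1
    simpa using hn'

/-! ## `P` -/

/-- the set of orthonormal pairs -/
def PS : Set (C3 × C3) := {p | n3 p.1 = 1 ∧ n3 p.2 = 1 ∧ h3 p.1 p.2 = 0}

theorem continuous_h3 : Continuous fun p : C3 × C3 => h3 p.1 p.2 := by
  unfold h3
  fun_prop

theorem compact_P : CompactSpace P := by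
  refine (isCompact_iff_compactSpace (s := PS)).1 ?_
  refine Metric.isCompact_of_isClosed_isBounded ?_ ?_
  · exact (isClosed_eq (continuous_n3.comp continuous_fst) continuous_const).inter
      ((isClosed_eq (continuous_n3.comp continuous_snd) continuous_const).inter
        (isClosed_eq continuous_h3 continuous_const))
  · refine (Metric.isBounded_closedBall (x := (0 : C3 × C3)) (r := 1)).subset ?_
    rintro p ⟨h1, h2, _⟩
    rw [mem_closedBall_zero_iff, norm_prod_le_iff]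
    exact ⟨norm_le_of_n3 h1, norm_le_of_n3 h2⟩

theorem joined_right {u v v' : C3} (h : (u, v) ∈ PS) (h' : (u, v') ∈ PS) :
    JoinedIn PS (u, v) (u, v') := by
  have hp := sphere_path (Wr u) (ne_bot (show v ∈ Wr u from h.2.2) h.2.1)
  have h1 := hp.image (f := fun w : C3 => (u, w)) (by fun_prop)
  refine (h1.joinedIn _ ⟨v, ⟨h.2.2, h.2.1⟩, rfl⟩ _ ⟨v', ⟨h'.2.2, h'.2.1⟩, rfl⟩).mono ?_
  rintro _ ⟨w, ⟨hw1, hw2⟩, rfl⟩
  exact ⟨h.1, hw2, hw1⟩

theorem joined_left {u u' v : C3} (h : (u, v) ∈ PS) (h' : (u', v) ∈ PS) :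
    JoinedIn PS (u, v) (u', v) := by
  have hp := sphere_path (Wl v) (ne_bot (show u ∈ Wl v from h.2.2) h.1)
  have h1 := hp.image (f := fun w : C3 => (w, v)) (by fun_prop)
  refine (h1.joinedIn _ ⟨u, ⟨h.2.2, h.1⟩, rfl⟩ _ ⟨u', ⟨h'.2.2, h'.1⟩, rfl⟩).mono ?_
  rintro _ ⟨w, ⟨hw1, hw2⟩, rfl⟩
  exact ⟨hw2, h.2.1, hw1⟩

theorem exists_orth (u : C3) : ∃ w : C3, n3 w = 1 ∧ h3 u w = 0 ∧ w.1 = 0 := by
  by_cases h : Complex.normSq u.2.1 + Complex.normSq u.2.2 = 0
  · have h1 := Complex.normSq_nonneg u.2.1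
    have h2 := Complex.normSq_nonneg u.2.2
    have e1 : u.2.1 = 0 := Complex.normSq_eq_zero.1 (by linarith)
    exact ⟨(0, 1, 0), by simp [n3], by simp [h3, e1], rfl⟩
  · have hpos : 0 < Complex.normSq u.2.1 + Complex.normSq u.2.2 :=
      lt_of_le_of_ne (add_nonneg (Complex.normSq_nonneg _) (Complex.normSq_nonneg _)) (Ne.symm h)
    set t := Complex.normSq u.2.1 + Complex.normSq u.2.2 with ht
    let w0 : C3 := (0, -(starRingEnd ℂ) u.2.2, (starRingEnd ℂ) u.2.1)
    refine ⟨(Real.sqrt t)⁻¹ • w0, ?_, ?_, ?_⟩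
    · rw [n3_smul]
      have h1 : n3 w0 = t := by
        simp only [n3, w0, Complex.normSq_neg, Complex.normSq_conj, map_zero, zero_add, ht]
        ring
      rw [h1, inv_pow, Real.sq_sqrt hpos.le, inv_mul_cancel₀ hpos.ne']
    · simp only [h3, w0, Prod.smul_fst, Prod.smul_snd, Complex.real_smul]
      ring
    · simp [w0]

theorem path_P : PathConnectedSpace P := by
  refine (isPathConnected_iff_pathConnectedSpace (F := PS)).1 ?_
  have hbase : (((1, 0, 0), (0, 1, 0)) : C3 × C3) ∈ PS := by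
    refine ⟨?_, ?_, ?_⟩ <;> simp [n3, h3]
  refine ⟨((1, 0, 0), (0, 1, 0)), hbase, ?_⟩
  rintro ⟨u, v⟩ hp
  obtain ⟨w, hw1, hw2, hw3⟩ := exists_orth u
  have h1 : (u, w) ∈ PS := ⟨hp.1, hw1, hw2⟩
  have h2 : (((1, 0, 0) : C3), w) ∈ PS := by
    refine ⟨by simp [n3], hw1, ?_⟩
    simp [h3, hw3]
  exact ((joined_right hp h1).trans ((joined_left h1 h2).trans (joined_right h2 hbase))).symm

/-! ## `B` -/

/-- the set of points of `B` -/
def BS : Set (ℝ × ℂ × C3) := {b | b.1 ^ 2 + Complex.normSq b.2.1 = 1 ∧ n3 b.2.2 = 1 ∧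
  b.2.1 * b.2.2.2.1 = (1 - b.1) * b.2.2.1 ∧
  (starRingEnd ℂ) b.2.1 * b.2.2.1 = (1 + b.1) * b.2.2.2.1}

theorem compact_B : CompactSpace B := by
  refine (isCompact_iff_compactSpace (s := BS)).1 ?_
  refine Metric.isCompact_of_isClosed_isBounded ?_ ?_
  · refine (isClosed_eq ?_ continuous_const).inter ((isClosed_eq ?_ continuous_const).inter
      ((isClosed_eq ?_ ?_).inter (isClosed_eq ?_ ?_)))
    · exact (continuous_fst.pow 2).add
        (Complex.continuous_normSq.comp (continuous_fst.comp continuous_snd))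
    · exact continuous_n3.comp (continuous_snd.comp continuous_snd)
    all_goals fun_prop
  · refine (Metric.isBounded_closedBall (x := (0 : ℝ × ℂ × C3)) (r := 1)).subset ?_
    rintro b ⟨h1, h2, _⟩
    rw [mem_closedBall_zero_iff, norm_prod_le_iff, norm_prod_le_iff]
    have h3 := sq_nonneg b.1
    have h4 := Complex.normSq_nonneg b.2.1
    refine ⟨?_, norm_le_of_normSq (by linarith), norm_le_of_n3 h2⟩
    rw [Real.norm_eq_abs]
    exact (sq_le_one_iff_abs_le_one b.1).1 (by linarith)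

theorem path_B : PathConnectedSpace B := by
  refine (isPathConnected_iff_pathConnectedSpace (F := BS)).1 ?_
  have hx : ∀ x : ℝ × ℂ, x.1 ^ 2 + Complex.normSq x.2 = 1 →
      (x.1, x.2, ((0, 0, 1) : C3)) ∈ BS := by
    intro x h
    refine ⟨h, ?_, ?_, ?_⟩ <;> simp [n3]
  refine ⟨(1, 0, (0, 0, 1)), hx (1, 0) (by simp), ?_⟩
  rintro ⟨r, z, u⟩ ⟨h1, h2, h3, h4⟩
  have hmem : u ∈ Wb (r, z) := ⟨h3, h4⟩
  have hp := (sphere_path (Wb (r, z)) (ne_bot hmem h2)).image
    (f := fun w : C3 => (r, z, w)) (by fun_prop)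
  have hj1 : JoinedIn BS (r, z, u) (r, z, (0, 0, 1)) := by
    refine (hp.joinedIn _ ⟨u, ⟨hmem, h2⟩, rfl⟩ _ ⟨(0, 0, 1), ⟨?_, by simp [n3]⟩, rfl⟩).mono ?_
    · constructor <;> simp
    · rintro _ ⟨w, ⟨hw1, hw2⟩, rfl⟩
      exact ⟨h1, hw2, hw1.1, hw1.2⟩
  have hq := s2_path.image (f := fun x : ℝ × ℂ => (x.1, x.2, ((0, 0, 1) : C3))) (by fun_prop)
  have hj2 : JoinedIn BS (r, z, (0, 0, 1)) (1, 0, (0, 0, 1)) := by
    refine (hq.joinedIn _ ⟨(r, z), h1, rfl⟩ _ ⟨(1, 0), by simp, rfl⟩).mono ?_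
    rintro _ ⟨x, hx', rfl⟩
    exact hx x hx'
  exact (hj1.trans hj2).symm

theorem top : TopStatement :=
  ⟨⟨compact_S3, path_S3⟩, ⟨compact_P, path_P⟩, ⟨compact_B, path_B⟩⟩

end

end Pool.Agent.Lib.MP_89fcdb_gt.H14
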